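import Pool.Agent.Helper382_Rep.Class

/-!
# Ordinary primes for motives of intersection cohomology: roots of representations

`K₀` is a number field and `R` a motive over `K₀`, cut out of intersection cohomology, with the
`ℓ'`-adic realisations `R ℓ'`, for all primes `ℓ'`, and the Hodge-Tate slopes `H`. The `R ℓ'` are
strictly compatible: the characteristic polynomials `F v` of the geometric Frobenius elements are
integral and do not depend on `ℓ'`.

The generators are finitely many pure motives `A i` over a finite extension `K` of `K₀` with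
multiplication by totally real or CM fields (over `K` the `ℓ`-adic monodromy groups are connected, for
one prime `ℓ`), with the orbit condition of the library: some element `γ` of the Galois group of `K` is
`Admissible` for all `A i`. Examples are the `H¹` of elliptic curves and abelian surfaces, the `H²` of
K3 surfaces, and other motives with multiplications with small Hodge numbers.

The class `Generated` is the smallest class of systems over `K` which contains the generators and is
closed under direct sums, tensor products, Tate twists, duals, polynomial representations `r` of `GL_n`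
(`V ↦ r(V)`: exterior and symmetric powers, all Schur functors), and under the passage

* from a direct sum `V₁ ⊕ V₂` to `V₁`,
* from a tensor product `V₁ ⊗ V₂` to the factor `V₁`,
* from `r(V)` to `V`, for every polynomial representation `r` of `GL_n` which is not trivial on `SL_n`,

if Mazur's inequality (the Newton polygon lies on or above the Hodge polygon) holds for `V₁`, `V₂` and
`V`. This inequality is known for the motives of the problem if they are cut out by algebraic cycles.
The operations can be iterated in any order.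

Theorem. If finitely many such motives `R i` are potentially, i.e. over `K`, in this class, then the
places of `K₀` at which the Newton polygons of all `R i ℓ'` are the Hodge-Tate polygons (for all `ℓ'` and
all embeddings `τ`) have positive lower density; in particular, there are infinitely many.

What is new compared with the library (`OrdinarySummands`, and `MP_17d720_ag`, where `R` is a direct
summand of a direct sum of tensor products of generators) are the tensor factors and the roots of
representations. Examples: all `R` such that the exterior square, the symmetric square, or any other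
Schur functor of `R` is in the class, like motives of rank 4 whose exterior square is, up to twists and a
summand of rank one, a motive of K3 type of rank 5 or 6 (`Sp₄ → SO₅`, `SL₄ → SO₆`). In the earlier
theorem `MP_db07cb_ag.TensorRoots` only tensor powers are admitted (there without Mazur's inequality);
the exterior square of `R` being in the class does not give any tensor power.

The proof: let `u` and `t` be the logarithms of the absolute values of the eigenvalues of `V` and of the
`q^h`, `h` the Hodge slopes. By the symmetry of the weights the sum of the squares of the slopes of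
`r(V)` is `a ∑ u² + b (∑ u)²` with `a > 0` if `r` is not trivial on `SL_n`; so `r(V)` determines `∑ u`
and `∑ u²`, and these are extremal among all vectors which are majorized by `t` only for the
permutations of `t` (`∑ t² - ∑ u²` is twice the area between the two polygons in the Legendre dual
picture).
-/

set_option autoImplicit false

namespace Pool.Agent.Results.MP_0dad22_ag.RootsOfRepresentations

open NumberField IsDedekindDomain Polynomial Filter Topology
open Pool.Agent.W401.Cheb Pool.Agent.W528.Ord Pool.Agent.R915.Ord Pool.Agent.W850.Ord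
open Pool.Agent.Helper382_Rep

/-- The `R ℓ'` are strictly compatible: at the places of degree one outside `T` the characteristic
polynomial of the geometric Frobenius element (the inverse of `γ`) is `F v`. -/
def StrictlyCompatible {K₀ : Type} [Field K₀] [NumberField K₀] (T : Finset ℕ) {r : ℕ}
    (R : ∀ (ℓ' : ℕ) [Fact ℓ'.Prime], GK K₀ →* Matrix.GeneralLinearGroup (Fin r) ℚ_[ℓ'])
    (F : HeightOneSpectrum (𝓞 K₀) → Polynomial ℤ) : Prop :=
  ∀ (ℓ' : ℕ) [Fact ℓ'.Prime] (v₀ : HeightOneSpectrum (𝓞 K₀)), MultSystem.IsDeg1 T v₀ →
    Ideal.absNorm v₀.asIdeal ≠ ℓ' → ∀ γ : GK K₀, IsFrob v₀ γ →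
      (R ℓ' γ⁻¹ : Matrix (Fin r) (Fin r) ℚ_[ℓ']).charpoly = (F v₀).map (Int.castRingHom ℚ_[ℓ'])

/-- `v₀` has degree one, and for every prime `ℓ'` different from the residue characteristic `p = N v₀`
and every embedding `τ` of the field of algebraic numbers the Newton polygon of `R ℓ'` at `v₀` has the
slopes `H`. -/
def Ordinary {K₀ : Type} [Field K₀] [NumberField K₀] {r : ℕ}
    (R : ∀ (ℓ' : ℕ) [Fact ℓ'.Prime], GK K₀ →* Matrix.GeneralLinearGroup (Fin r) ℚ_[ℓ'])
    (H : Multiset ℕ) (v₀ : HeightOneSpectrum (𝓞 K₀)) : Prop :=
  ∃ (p : ℕ) (_ : Fact p.Prime), Ideal.absNorm v₀.asIdeal = p ∧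
    ∀ (ℓ' : ℕ) [Fact ℓ'.Prime], p ≠ ℓ' → ∀ γ : GK K₀, IsFrob v₀ γ →
      ∀ τ : algebraicClosure ℚ (PadicAlgCl ℓ') →+* PadicAlgCl p,
        NewtonTau (R ℓ' γ⁻¹ : Matrix (Fin r) (Fin r) ℚ_[ℓ']) τ H

theorem ordinary_of {K₀ : Type} [Field K₀] [NumberField K₀] (T : Finset ℕ) {r : ℕ}
    (R : ∀ (ℓ' : ℕ) [Fact ℓ'.Prime], GK K₀ →* Matrix.GeneralLinearGroup (Fin r) ℚ_[ℓ'])
    (F : HeightOneSpectrum (𝓞 K₀) → Polynomial ℤ) (H : Multiset ℕ) (hR : StrictlyCompatible T R F)
    (v₀ : HeightOneSpectrum (𝓞 K₀)) (hv : MultSystem.IsDeg1 T v₀)
    (hN : NewtonSlopes (Ideal.absNorm v₀.asIdeal) (F v₀) H) : Ordinary R H v₀ := by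
  have hN' := hN
  obtain ⟨hp, -⟩ := hN
  refine ⟨Ideal.absNorm v₀.asIdeal, hp, rfl, ?_⟩
  intro ℓ' _ hne γ hγ τ
  exact newtonTau_of _ τ _ (F v₀) (hR ℓ' v₀ hv hne γ hγ) hN'

theorem result (K₀ K : Type) [Field K₀] [NumberField K₀] [Field K] [NumberField K] [Algebra K₀ K]
    -- the generators
    (ℓ : ℕ) [Fact ℓ.Prime] (ι : Type) [Fintype ι]
    (A : ι → MotSystem K ℓ) (χ : GK K →* (PadicAlgCl ℓ)ˣ)
    (S : ι → Finset ℕ) (hA : ∀ i, (A i).IsMotive χ (S i))
    -- the orbit condition
    (hγ : ∃ γ : GK K, ∀ i, (A i).Admissible γ)
    -- the motives `R i`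
    (T : Finset ℕ) (ν : Type) [Finite ν] (r : ν → ℕ)
    (R : ∀ (i : ν) (ℓ' : ℕ) [Fact ℓ'.Prime], GK K₀ →* Matrix.GeneralLinearGroup (Fin (r i)) ℚ_[ℓ'])
    (F : ν → HeightOneSpectrum (𝓞 K₀) → ℤ[X]) (H : ν → Multiset ℕ)
    (hR : ∀ i, StrictlyCompatible T (R i) (F i))
    (hF : ∀ i, PotentiallyGenerated A T (F i) (H i)) :
    0 < lowerDensity (fun v₀ : HeightOneSpectrum (𝓞 K₀) => ∀ i, Ordinary (R i) (H i) v₀) ∧
      MotSystem.admProportion A / (Module.finrank K₀ K : ℝ) ≤
        lowerDensity (fun v₀ : HeightOneSpectrum (𝓞 K₀) => ∀ i, Ordinary (R i) (H i) v₀) ∧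
      {v₀ : HeightOneSpectrum (𝓞 K₀) | ∀ i, Ordinary (R i) (H i) v₀}.Infinite := by
  have hd : (0 : ℝ) < (Module.finrank K₀ K : ℝ) := by
    have : FiniteDimensional K₀ K := Module.Finite.of_restrictScalars_finite ℚ K₀ K
    exact_mod_cast Module.finrank_pos
  have hpos : 0 < MotSystem.admProportion A / (Module.finrank K₀ K : ℝ) :=
    div_pos (MotSystem.admProportion_pos A hγ) hd
  have hlow := lower_below (K₀ := K₀) A χ S hA
  -- a good place is ordinary
  have hord : ∀ i v₀, Below K₀ A S v₀ → Ideal.absNorm v₀.asIdeal ∉ T →
      Ordinary (R i) (H i) v₀ := by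
    rintro i v₀ ⟨v, h0, hg⟩ hT
    have e := under_norm v hg.1 v₀ h0
    refine ordinary_of T (R i) (F i) (H i) (hR i) v₀ ⟨e ▸ hg.1, hT⟩ ?_
    exact newton_of_generated A χ S hA (hF i) v₀ v h0 hg (e ▸ hT)
  have key : MotSystem.admProportion A / (Module.finrank K₀ K : ℝ) ≤
      lowerDensity (fun v₀ : HeightOneSpectrum (𝓞 K₀) => ∀ i, Ordinary (R i) (H i) v₀) := by
    refine hlow.trans (lowerDensity_le_of_finite _ _ T ?_)
    intro v₀ hv₀ hT i
    exact hord i v₀ hv₀ hT
  exact ⟨lt_of_lt_of_le hpos key, key, infinite_of_pos _ (lt_of_lt_of_le hpos key)⟩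

end Pool.Agent.Results.MP_0dad22_ag.RootsOfRepresentations
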